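import Mathlib

set_option autoImplicit false
set_option linter.unusedSectionVars false

namespace Pool.Agent.Results.MP_235f01_an.NoUncondSuperADP

open Filter Topology

/-- `e` is a Schauder basis of `X`: every vector has a unique expansion. -/
def IsSchauderBasis {X : Type*} [NormedAddCommGroup X] [NormedSpace ℝ X] (e : ℕ → X) : Prop :=
  ∀ x : X, ∃! a : ℕ → ℝ, Tendsto (fun N => ∑ n ∈ Finset.range N, a n • e n) atTop (𝓝 x)

/-- Changing signs of the coefficients of finite linear combinations does not change the norm. -/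
def IsOneUnconditional {X : Type*} [NormedAddCommGroup X] [NormedSpace ℝ X]
    (e : ℕ → X) : Prop :=
  ∀ (s : Finset ℕ) (a ε : ℕ → ℝ), (∀ n, ε n = 1 ∨ ε n = -1) →
    ‖∑ n ∈ s, (ε n * a n) • e n‖ = ‖∑ n ∈ s, a n • e n‖

/-- The super alternative Daugavet property (for infinite-dimensional spaces): for every unit
vector `x` and every nonempty relatively weakly open subset `W` of the closed unit ball, the
supremum over `y ∈ W` of `max ‖x + y‖ ‖x - y‖` is `2`. -/
def SuperADP (X : Type*) [NormedAddCommGroup X] [NormedSpace ℝ X] : Prop :=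
  ¬ FiniteDimensional ℝ X ∧
    ∀ x : X, ‖x‖ = 1 → ∀ W : Set X, W.Nonempty →
      (∃ U : Set (WeakSpace ℝ X), IsOpen U ∧
        W = Metric.closedBall (0 : X) 1 ∩ toWeakSpace ℝ X ⁻¹' U) →
      sSup ((fun y : X => max ‖x + y‖ ‖x - y‖) '' W) = 2

section aux

variable {X : Type*} [NormedAddCommGroup X] [NormedSpace ℝ X]

lemma continuous_weak (f : X →L[ℝ] ℝ) :
    Continuous (fun y : WeakSpace ℝ X => f ((toWeakSpace ℝ X).symm y)) :=
  WeakBilin.eval_continuous (topDualPairing ℝ X).flip f

/-- criterion for failure of the super ADP -/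
lemma not_superADP_of {F : Finset ℕ} (f : ℕ → (X →L[ℝ] ℝ)) (w x : X) (hw : ‖w‖ ≤ 1)
    (hx : ‖x‖ = 1) {δ β : ℝ} (hδ : 0 < δ) (hβ : β < 2)
    (h : ∀ y : X, ‖y‖ ≤ 1 → (∀ i ∈ F, |f i y - f i w| < δ) → ‖x + y‖ ≤ β ∧ ‖x - y‖ ≤ β) :
    ¬ SuperADP X := by
  rintro ⟨-, H⟩
  let U : Set (WeakSpace ℝ X) := ⋂ i ∈ F, {y | |f i ((toWeakSpace ℝ X).symm y) - f i w| < δ}
  have hU : IsOpen U := by
    apply isOpen_biInter_finset
    intro i _
    exact isOpen_lt ((continuous_weak (f i)).sub continuous_const).abs continuous_const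
  let W : Set X := Metric.closedBall (0 : X) 1 ∩ toWeakSpace ℝ X ⁻¹' U
  have hmem : ∀ y, y ∈ W → ‖y‖ ≤ 1 ∧ ∀ i ∈ F, |f i y - f i w| < δ := by
    rintro y ⟨h1, h2⟩
    refine ⟨by simpa using h1, fun i hi => ?_⟩
    have h3 : toWeakSpace ℝ X y ∈ ⋂ i ∈ F,
      {y : WeakSpace ℝ X | |f i ((toWeakSpace ℝ X).symm y) - f i w| < δ} := h2
    rw [Set.mem_iInter₂] at h3
    have h4 := h3 i hi
    simpa using h4
  have hwW : w ∈ W := by
    refine ⟨by simpa using hw, ?_⟩
    change toWeakSpace ℝ X w ∈ ⋂ i ∈ F,
      {y : WeakSpace ℝ X | |f i ((toWeakSpace ℝ X).symm y) - f i w| < δ}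
    rw [Set.mem_iInter₂]
    intro i _
    simpa using hδ
  have h2 := H x hx W ⟨w, hwW⟩ ⟨U, hU, rfl⟩
  have h3 : sSup ((fun y : X => max ‖x + y‖ ‖x - y‖) '' W) ≤ β := by
    refine csSup_le (Set.Nonempty.image _ ⟨w, hwW⟩) ?_
    rintro _ ⟨y, hy, rfl⟩
    obtain ⟨h4, h5⟩ := hmem y hy
    exact max_le (h y h4 h5).1 (h y h4 h5).2
  linarith

variable {e : ℕ → X}

/-- the coefficients of `x` -/
noncomputable def coord (he : IsSchauderBasis e) (x : X) : ℕ → ℝ := Classical.choose (he x).exists

variable (he : IsSchauderBasis e)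
include he

lemma coord_spec (x : X) :
    Tendsto (fun N => ∑ n ∈ Finset.range N, coord he x n • e n) atTop (𝓝 x) :=
  Classical.choose_spec (he x).exists

lemma coord_unique {x : X} {a : ℕ → ℝ}
    (h : Tendsto (fun N => ∑ n ∈ Finset.range N, a n • e n) atTop (𝓝 x)) : coord he x = a :=
  (he x).unique (coord_spec he x) h

lemma coord_add (x y : X) (n : ℕ) : coord he (x + y) n = coord he x n + coord he y n := by
  have : coord he (x + y) = fun n => coord he x n + coord he y n := by
    apply coord_unique
    have h1 := (coord_spec he x).add (coord_spec he y)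
    refine h1.congr (fun N => ?_)
    rw [← Finset.sum_add_distrib]
    exact Finset.sum_congr rfl (fun n _ => by rw [add_smul])
  rw [this]

lemma coord_smul (c : ℝ) (x : X) (n : ℕ) : coord he (c • x) n = c * coord he x n := by
  have : coord he (c • x) = fun n => c * coord he x n := by
    apply coord_unique
    have h1 := (coord_spec he x).const_smul c
    refine h1.congr (fun N => ?_)
    rw [Finset.smul_sum]
    exact Finset.sum_congr rfl (fun n _ => by rw [smul_smul])
  rw [this]

lemma coord_sub (x y : X) (n : ℕ) : coord he (x - y) n = coord he x n - coord he y n := by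
  have h : x - y = x + (-1 : ℝ) • y := by rw [neg_one_smul, sub_eq_add_neg]
  rw [h, coord_add, coord_smul]
  ring

lemma coord_sum (s : Finset ℕ) (a : ℕ → ℝ) (n : ℕ) :
    coord he (∑ i ∈ s, a i • e i) n = if n ∈ s then a n else 0 := by
  classical
  have : coord he (∑ i ∈ s, a i • e i) = fun n => if n ∈ s then a n else 0 := by
    apply coord_unique
    apply tendsto_const_nhds.congr'
    filter_upwards [eventually_ge_atTop (s.sup id + 1)] with N hN
    have hsub : s ⊆ Finset.range N := by
      intro i hi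
      have : i ≤ s.sup id := Finset.le_sup (f := id) hi
      rw [Finset.mem_range]
      omega
    rw [← Finset.sum_subset hsub]
    · exact Finset.sum_congr rfl (fun i hi => by rw [if_pos hi])
    · intro i _ hi
      rw [if_neg hi, zero_smul]
  rw [this]

lemma e_ne_zero (i : ℕ) : e i ≠ 0 := by
  intro h0
  have h1 := coord_sum he {i} (fun _ => 1) i
  have h2 := coord_sum he ∅ (fun _ => 1) i
  simp [h0] at h1 h2
  rw [h2] at h1
  exact zero_ne_one h1

/-- the projection to a finite set of coordinates -/
noncomputable def P (s : Finset ℕ) (x : X) : X := ∑ i ∈ s, coord he x i • e i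

lemma P_add (s : Finset ℕ) (x y : X) : P he s (x + y) = P he s x + P he s y := by
  unfold P
  rw [← Finset.sum_add_distrib]
  exact Finset.sum_congr rfl (fun n _ => by rw [coord_add, add_smul])

lemma P_sub (s : Finset ℕ) (x y : X) : P he s (x - y) = P he s x - P he s y := by
  unfold P
  rw [← Finset.sum_sub_distrib]
  exact Finset.sum_congr rfl (fun n _ => by rw [coord_sub, sub_smul])

lemma P_smul (s : Finset ℕ) (c : ℝ) (x : X) : P he s (c • x) = c • P he s x := by
  unfold P
  rw [Finset.smul_sum]
  exact Finset.sum_congr rfl (fun n _ => by rw [coord_smul, mul_smul])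

lemma coord_P (s : Finset ℕ) (x : X) (n : ℕ) :
    coord he (P he s x) n = if n ∈ s then coord he x n else 0 := coord_sum he s _ n

lemma P_P_of_subset {s t : Finset ℕ} (h : s ⊆ t) (x : X) : P he s (P he t x) = P he s x := by
  change ∑ i ∈ s, coord he (P he t x) i • e i = ∑ i ∈ s, coord he x i • e i
  apply Finset.sum_congr rfl
  intro n hn
  rw [coord_P, if_pos (h hn)]

lemma norm_flip (hu : IsOneUnconditional e) (s : Finset ℕ) (x : X) :
    ‖x - (2 : ℝ) • P he s x‖ = ‖x‖ := by
  classical
  have h1 := (coord_spec he x).norm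
  have h2 : Tendsto (fun N => ‖(∑ n ∈ Finset.range N, coord he x n • e n) -
      (2 : ℝ) • P he s x‖) atTop (𝓝 ‖x - (2 : ℝ) • P he s x‖) :=
    ((coord_spec he x).sub_const _).norm
  refine tendsto_nhds_unique h2 (h1.congr' ?_)
  filter_upwards [eventually_ge_atTop (s.sup id + 1)] with N hN
  have hsub : s ⊆ Finset.range N := by
    intro i hi
    have : i ≤ s.sup id := Finset.le_sup (f := id) hi
    rw [Finset.mem_range]
    omega
  rw [← hu (Finset.range N) (coord he x) (fun n => if n ∈ s then -1 else 1)
    (fun n => by by_cases h : n ∈ s <;> simp [h])]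
  congr 1
  have h3 : P he s x = ∑ n ∈ Finset.range N, if n ∈ s then coord he x n • e n else 0 := by
    unfold P
    rw [← Finset.sum_subset hsub]
    · exact Finset.sum_congr rfl (fun i hi => by rw [if_pos hi])
    · intro i _ hi
      rw [if_neg hi]
  rw [h3, Finset.smul_sum, ← Finset.sum_sub_distrib]
  apply Finset.sum_congr rfl
  intro n _
  by_cases h : n ∈ s
  · simp only [h, if_true]
    rw [neg_one_mul, neg_smul, two_smul]
    abel
  · simp only [h, if_false]
    rw [one_mul, smul_zero, sub_zero]

lemma norm_compl_le (hu : IsOneUnconditional e) (s : Finset ℕ) (x : X) :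
    ‖x - P he s x‖ ≤ ‖x‖ := by
  have h1 : x - P he s x = (1 / 2 : ℝ) • (x + (x - (2 : ℝ) • P he s x)) := by
    rw [smul_add, smul_sub, smul_smul]
    have : x = (1 / 2 : ℝ) • x + (1 / 2 : ℝ) • x := by rw [← add_smul]; norm_num
    nth_rewrite 1 [this]
    norm_num
    abel
  rw [h1, norm_smul]
  have h2 := norm_add_le x (x - (2 : ℝ) • P he s x)
  rw [norm_flip he hu] at h2
  rw [Real.norm_of_nonneg (by norm_num)]
  linarith

lemma norm_P_le (hu : IsOneUnconditional e) (s : Finset ℕ) (x : X) :
    ‖P he s x‖ ≤ ‖x‖ := by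
  have h1 : P he s x = (1 / 2 : ℝ) • (x - (x - (2 : ℝ) • P he s x)) := by
    rw [sub_sub_cancel, smul_smul]
    norm_num
  rw [h1, norm_smul]
  have h2 := norm_sub_le x (x - (2 : ℝ) • P he s x)
  rw [norm_flip he hu] at h2
  rw [Real.norm_of_nonneg (by norm_num)]
  linarith

lemma coord_bound (hu : IsOneUnconditional e) (i : ℕ) (x : X) :
    |coord he x i| * ‖e i‖ ≤ ‖x‖ := by
  have h := norm_P_le he hu {i} x
  unfold P at h
  rw [Finset.sum_singleton, norm_smul, Real.norm_eq_abs] at h
  exact h

/-- the coefficient functionals -/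
noncomputable def coordL (hu : IsOneUnconditional e) (i : ℕ) : X →L[ℝ] ℝ :=
  LinearMap.mkContinuous
    { toFun := fun x => coord he x i
      map_add' := fun x y => coord_add he x y i
      map_smul' := fun c x => coord_smul he c x i } ‖e i‖⁻¹ (fun x => by
        have h0 : 0 < ‖e i‖ := norm_pos_iff.2 (e_ne_zero he i)
        have h := coord_bound he hu i x
        change ‖coord he x i‖ ≤ _
        rw [Real.norm_eq_abs, inv_mul_eq_div, le_div_iff₀ h0]
        exact h)

lemma coordL_apply (hu : IsOneUnconditional e) (i : ℕ) (x : X) :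
    coordL he hu i x = coord he x i := rfl

/-- a unit vector which splits nontrivially -/
lemma not_superADP_of_split (hu : IsOneUnconditional e) {w : X} (hw : ‖w‖ = 1) {F A : Finset ℕ}
    (hwF : P he F w = w) (hA : A ⊆ F) (h1 : ‖P he A w‖ < 1) (h2 : ‖w - P he A w‖ < 1) :
    ¬ SuperADP X := by
  classical
  set α : ℝ := max ‖P he A w‖ ‖w - P he A w‖ with hα
  have hα1 : α < 1 := max_lt h1 h2
  have hs : P he (F \ A) w = w - P he A w := by
    have h3 : P he (F \ A) w + P he A w = P he F w := by
      unfold P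
      exact Finset.sum_sdiff hA
    rw [hwF] at h3
    exact eq_sub_of_add_eq h3
  set ε : ℝ := (1 - α) / 4 with hε
  have hεp : 0 < ε := by rw [hε]; linarith
  obtain ⟨M, hM0, hM⟩ : ∃ M : ℝ, 0 < M ∧ ∀ i ∈ F, ‖e i‖ ≤ M := by
    refine ⟨1 + ∑ i ∈ F, ‖e i‖, by positivity, fun i hi => ?_⟩
    have := Finset.single_le_sum (f := fun i => ‖e i‖) (fun i _ => norm_nonneg (e i)) hi
    linarith
  have hcard : (0 : ℝ) < (F.card : ℝ) + 1 := by positivity
  refine not_superADP_of (F := F) (coordL he hu) w (P he A w - P he (F \ A) w) hw.le ?_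
    (δ := ε / (((F.card : ℝ) + 1) * M)) (β := 1 + α + 2 * ε) (by positivity)
    (by rw [hε]; linarith) ?_
  · have h3 : P he A w - P he (F \ A) w = w - (2 : ℝ) • P he (F \ A) w := by
      rw [hs, two_smul]
      abel
    rw [h3, norm_flip he hu, hw]
  · intro y hy hyF
    set z : X := w + (y - P he F y) with hz
    set d : X := P he F y - w with hd
    have hdn : ‖d‖ ≤ ε := by
      have h3 : d = ∑ i ∈ F, (coord he y i - coord he w i) • e i := by
        rw [hd]
        nth_rewrite 1 [← hwF]
        unfold P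
        rw [← Finset.sum_sub_distrib]
        exact Finset.sum_congr rfl (fun n _ => by rw [sub_smul])
      rw [h3]
      calc ‖∑ i ∈ F, (coord he y i - coord he w i) • e i‖
          ≤ ∑ i ∈ F, ‖(coord he y i - coord he w i) • e i‖ := norm_sum_le _ _
        _ ≤ ∑ i ∈ F, ε / ((F.card : ℝ) + 1) := by
            apply Finset.sum_le_sum
            intro i hi
            rw [norm_smul, Real.norm_eq_abs]
            have h4 := (hyF i hi).le
            rw [coordL_apply, coordL_apply] at h4
            calc |coord he y i - coord he w i| * ‖e i‖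
                ≤ (ε / (((F.card : ℝ) + 1) * M)) * M := by
                  apply mul_le_mul h4 (hM i hi) (norm_nonneg _) (by positivity)
              _ = ε / ((F.card : ℝ) + 1) := by field_simp
        _ = F.card * (ε / ((F.card : ℝ) + 1)) := by rw [Finset.sum_const, nsmul_eq_mul]
        _ ≤ ε := by
            rw [mul_div_assoc', div_le_iff₀ hcard]
            nlinarith
    have hzn : ‖z‖ ≤ 1 + ε := by
      have h3 : z = y - d := by rw [hz, hd]; abel
      rw [h3]
      exact (norm_sub_le _ _).trans (by linarith)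
    have hyz : y = z + d := by rw [hz, hd]; abel
    have hPz : ∀ G : Finset ℕ, G ⊆ F → P he G z = P he G w := by
      intro G hG
      rw [hz, P_add, P_sub, P_P_of_subset he hG, sub_self, add_zero]
    have ha : ‖P he A w‖ ≤ α := le_max_left _ _
    have hb : ‖P he (F \ A) w‖ ≤ α := by rw [hs]; exact le_max_right _ _
    constructor
    · have h3 : P he A w - P he (F \ A) w + y = P he A w + (z - P he (F \ A) z) + d := by
        rw [hPz _ Finset.sdiff_subset]
        nth_rewrite 1 [hyz]
        abel
      rw [h3]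
      calc ‖P he A w + (z - P he (F \ A) z) + d‖
          ≤ ‖P he A w‖ + ‖z - P he (F \ A) z‖ + ‖d‖ := norm_add₃_le
        _ ≤ α + (1 + ε) + ε := by
            gcongr
            exact (norm_compl_le he hu _ _).trans hzn
        _ = 1 + α + 2 * ε := by ring
    · have h3 : P he A w - P he (F \ A) w - y =
          -(P he (F \ A) w + (z - P he A z) + d) := by
        rw [hPz _ hA]
        nth_rewrite 1 [hyz]
        abel
      rw [h3, norm_neg]
      calc ‖P he (F \ A) w + (z - P he A z) + d‖
          ≤ ‖P he (F \ A) w‖ + ‖z - P he A z‖ + ‖d‖ := norm_add₃_le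
        _ ≤ α + (1 + ε) + ε := by
            gcongr
            exact (norm_compl_le he hu _ _).trans hzn
        _ = 1 + α + 2 * ε := by ring

end aux

/-- No Banach space with a 1-unconditional Schauder basis has the super alternative Daugavet
property. -/
theorem result {X : Type*} [NormedAddCommGroup X] [NormedSpace ℝ X] [CompleteSpace X]
    (e : ℕ → X) (he : IsSchauderBasis e) (hu : IsOneUnconditional e) : ¬ SuperADP X := by
  classical
  have h0 : 0 < ‖e 0‖ := norm_pos_iff.2 (e_ne_zero he 0)
  set u : X := ‖e 0‖⁻¹ • e 0 with hudef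
  have hun : ‖u‖ = 1 := by
    rw [hudef, norm_smul, norm_inv, norm_norm]
    field_simp
  have hu1 : u = ∑ i ∈ {0}, (fun _ : ℕ => ‖e 0‖⁻¹) i • e i := by
    rw [Finset.sum_singleton]
  by_cases hcase : ∃ (F : Finset ℕ) (b : X), P he F b = b ∧ 0 ∉ F ∧ ‖b‖ ≤ 1 ∧ 1 < ‖u + b‖
  · obtain ⟨F, b, hb, hF, hbn, hbig⟩ := hcase
    have hbp : 0 < ‖u + b‖ := by linarith
    have hcu : ∀ n, coord he u n = if n ∈ ({0} : Finset ℕ) then ‖e 0‖⁻¹ else 0 := by
      intro n
      rw [hu1, coord_sum]
    have hcb : coord he b 0 = 0 := by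
      rw [← hb, coord_P, if_neg hF]
    have hPu : ∀ G : Finset ℕ, 0 ∈ G → P he G u = u := by
      intro G hG
      unfold P
      rw [Finset.sum_eq_single 0]
      · rw [hcu, if_pos (Finset.mem_singleton_self 0)]
      · intro i _ hi
        rw [hcu, if_neg (by simpa using hi), zero_smul]
      · intro h; exact absurd hG h
    have hPb : P he {0} b = 0 := by
      unfold P
      rw [Finset.sum_singleton, hcb, zero_smul]
    have hPF : P he (insert 0 F) b = b := by
      conv_rhs => rw [← hb]
      unfold P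
      rw [Finset.sum_insert hF, hcb, zero_smul, zero_add]
    refine not_superADP_of_split he hu (w := ‖u + b‖⁻¹ • (u + b)) (F := insert 0 F)
      (A := {0}) ?_ ?_ ?_ ?_ ?_
    · rw [norm_smul, norm_inv, norm_norm]
      field_simp
    · rw [P_smul, P_add, hPu _ (Finset.mem_insert_self _ _), hPF]
    · intro i hi
      rw [Finset.mem_singleton] at hi
      rw [hi]; exact Finset.mem_insert_self _ _
    · rw [P_smul, P_add, hPu _ (Finset.mem_singleton_self _), hPb, add_zero, norm_smul, norm_inv,
        norm_norm, hun, mul_one]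
      exact inv_lt_one_of_one_lt₀ hbig
    · rw [P_smul, P_add, hPu _ (Finset.mem_singleton_self _), hPb, add_zero, ← smul_sub,
        add_sub_cancel_left, norm_smul, norm_inv, norm_norm]
      calc ‖u + b‖⁻¹ * ‖b‖ ≤ ‖u + b‖⁻¹ * 1 := by gcongr
        _ < 1 := by rw [mul_one]; exact inv_lt_one_of_one_lt₀ hbig
  · push Not at hcase
    have key : ∀ b : X, coord he b 0 = 0 → ‖b‖ ≤ 1 → ‖u + b‖ ≤ 1 := by
      intro b hb0 hbn
      have h1 : Tendsto (fun N => ‖u + ∑ n ∈ Finset.range N, coord he b n • e n‖) atTop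
          (𝓝 ‖u + b‖) := ((coord_spec he b).const_add u).norm
      refine le_of_tendsto h1 (Eventually.of_forall fun N => ?_)
      have h2 : ∑ n ∈ Finset.range N, coord he b n • e n = P he ((Finset.range N).erase 0) b := by
        unfold P
        by_cases h3 : 0 ∈ Finset.range N
        · rw [← Finset.add_sum_erase _ _ h3, hb0, zero_smul, zero_add]
        · rw [Finset.erase_eq_of_notMem h3]
      rw [h2]
      apply hcase ((Finset.range N).erase 0)
      · exact P_P_of_subset he subset_rfl b
      · exact Finset.notMem_erase _ _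
      · exact (norm_P_le he hu _ _).trans hbn
    refine not_superADP_of (F := {0}) (coordL he hu) 0 u (by simp) hun
      (δ := 1 / (2 * ‖e 0‖)) (β := 3 / 2) (by positivity) (by norm_num) ?_
    intro y hy hyF
    have h1 := hyF 0 (Finset.mem_singleton_self _)
    rw [map_zero, sub_zero, coordL_apply] at h1
    have hPy : ‖P he {0} y‖ ≤ 1 / 2 := by
      unfold P
      rw [Finset.sum_singleton, norm_smul, Real.norm_eq_abs]
      calc |coord he y 0| * ‖e 0‖ ≤ 1 / (2 * ‖e 0‖) * ‖e 0‖ := by gcongr
        _ = 1 / 2 := by field_simp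
    set b : X := y - P he {0} y with hb
    have hb0 : coord he b 0 = 0 := by
      rw [hb, coord_sub, coord_P, if_pos (Finset.mem_singleton_self _), sub_self]
    have hbn : ‖b‖ ≤ 1 := (norm_compl_le he hu _ _).trans hy
    have hb0' : coord he (-b) 0 = 0 := by
      have : -b = (-1 : ℝ) • b := by rw [neg_one_smul]
      rw [this, coord_smul, hb0, mul_zero]
    constructor
    · have h3 : u + y = (u + b) + P he {0} y := by rw [hb]; abel
      rw [h3]
      exact (norm_add_le _ _).trans (by linarith [key b hb0 hbn])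
    · have h3 : u - y = (u + -b) - P he {0} y := by rw [hb]; abel
      rw [h3]
      refine (norm_sub_le _ _).trans ?_
      have := key (-b) hb0' (by rw [norm_neg]; exact hbn)
      linarith

end Pool.Agent.Results.MP_235f01_an.NoUncondSuperADP
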